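import Pool.Agent.helper70.RK.Spec

/-!
# Row AST: the elementary abelian central part of a normal p-subgroup of a quotient
-/

namespace RK

open QS (Lef EAb)
open LEQ (Stb Nz XS Ls Mb FS mem_FS)

/-- central elements of order one or `p` of the normal subgroup `P` -/
def AST_W {Q : Type} [Group Q] (p : ℕ) (P : Subgroup Q) : Subgroup Q where
  carrier := {z | z ∈ P ∧ (∀ x ∈ P, z * x = x * z) ∧ z ^ p = 1}
  one_mem' := ⟨P.one_mem, fun x _ => by rw [one_mul, mul_one], one_pow p⟩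
  mul_mem' := by
    rintro a b ⟨ha, ha1, ha2⟩ ⟨hb, hb1, hb2⟩
    refine ⟨P.mul_mem ha hb, fun x hx => ?_, ?_⟩
    · rw [mul_assoc, hb1 x hx, ← mul_assoc, ha1 x hx, mul_assoc]
    · have h1 : Commute a b := ha1 b hb
      rw [h1.mul_pow, ha2, hb2, one_mul]
  inv_mem' := by
    rintro a ⟨ha, ha1, ha2⟩
    refine ⟨P.inv_mem ha, fun x hx => ?_, by rw [inv_pow, ha2, inv_one]⟩
    have h1 : Commute a x := ha1 x hx
    exact h1.inv_left

theorem AST_Wn {Q : Type} [Group Q] (p : ℕ) (P : Subgroup Q) (hP : P.Normal) :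
    (AST_W p P).Normal := by
  refine ⟨?_⟩
  rintro z ⟨h1, h2, h3⟩ g
  refine ⟨hP.conj_mem z h1 g, fun x hx => ?_, ?_⟩
  · have h4 := h2 (g⁻¹ * x * g) (by
      have := hP.conj_mem x hx g⁻¹
      rw [inv_inv] at this
      exact this)
    calc g * z * g⁻¹ * x = g * (z * (g⁻¹ * x * g)) * g⁻¹ := by group
      _ = g * ((g⁻¹ * x * g) * z) * g⁻¹ := by rw [h4]
      _ = x * (g * z * g⁻¹) := by group
  · rw [conj_pow, h3, mul_one, mul_inv_cancel]

theorem AST_ex {Q : Type} [Group Q] [Finite Q] (p : ℕ) (hp : p.Prime) (P : Subgroup Q)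
    (hP : IsPGroup p P) (hne : P ≠ ⊥) : ∃ z ∈ AST_W p P, orderOf z = p := by
  have : Fact p.Prime := ⟨hp⟩
  have hn : Nontrivial P := (Subgroup.nontrivial_iff_ne_bot P).2 hne
  have hc : Nontrivial (Subgroup.center P) := hP.center_nontrivial
  have hc2 : IsPGroup p (Subgroup.center P) := hP.to_subgroup _
  obtain ⟨n, hn0, hn1⟩ := hc2.nontrivial_iff_card.1 hc
  have hd : p ∣ Nat.card (Subgroup.center P) := by
    rw [hn1]
    exact dvd_pow_self p hn0.ne'
  obtain ⟨c, hc3⟩ := exists_prime_orderOf_dvd_card' (G := Subgroup.center P) p hd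
  have h1 : orderOf (((c : P) : Q)) = p := by
    rw [Subgroup.orderOf_coe, Subgroup.orderOf_coe, hc3]
  refine ⟨((c : P) : Q), ⟨(c : P).2, fun x hx => ?_, ?_⟩, h1⟩
  · have h2 := Subgroup.mem_center_iff.1 c.2 ⟨x, hx⟩
    have h3 := congrArg (Subtype.val) h2
    exact h3.symm
  · rw [← h1]
    exact pow_orderOf_eq_one _

/-- Row AST. -/
theorem AST : AST_stmt := by
  intro G _ _ p hp V hV hpV hO
  rw [Op1] at hO
  push Not at hO
  obtain ⟨P, hPn, hPp, hPne⟩ := hO
  have hWn := AST_Wn p P hPn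
  obtain ⟨z, hz, hzo⟩ := AST_ex p hp P hPp hPne
  refine ⟨(AST_W p P).comap (QuotientGroup.mk' V), ?_⟩
  refine ⟨hV, hWn.comap _, ?_, hpV, ?_, ?_, ?_⟩
  · intro v hv
    rw [Subgroup.mem_comap]
    have h1 : QuotientGroup.mk' V v = 1 := (QuotientGroup.eq_one_iff v).2 hv
    rw [h1]
    exact Subgroup.one_mem _
  · obtain ⟨m, hm⟩ := QuotientGroup.mk'_surjective V z
    have hmM : m ∈ (AST_W p P).comap (QuotientGroup.mk' V) := by
      rw [Subgroup.mem_comap, hm]
      exact hz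
    have h1 : p ∣ orderOf m := by
      rw [← hzo, ← hm]
      exact orderOf_map_dvd _ m
    exact h1.trans (Subgroup.orderOf_dvd_natCard _ hmM)
  · intro x hx
    have h1 : (QuotientGroup.mk' V x) ^ p = 1 := (Subgroup.mem_comap.1 hx).2.2
    rw [← map_pow] at h1
    exact (QuotientGroup.eq_one_iff _).1 h1
  · intro x hx y hy
    have h1 : QuotientGroup.mk' V x * QuotientGroup.mk' V y =
        QuotientGroup.mk' V y * QuotientGroup.mk' V x :=
      (Subgroup.mem_comap.1 hx).2.1 _ (Subgroup.mem_comap.1 hy).1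
    have h2 : QuotientGroup.mk' V (x * y * x⁻¹ * y⁻¹) = 1 := by
      rw [map_mul, map_mul, map_mul, h1, map_inv, map_inv]
      group
    exact (QuotientGroup.eq_one_iff _).1 h2

end RK
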